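import Mathlib
import Pool.Agent.W204.Reg.Pop

open Finset

namespace Pool.Agent.Results.MP_a3a416_nt.PopularSums

/-- Let `p` be a prime and `4 ≤ 2m ≤ p - 3` with `p` dividing the numerator of `B_{2m}`. Then the number
`r` of `k` with `0 < k < m` such that `p` divides neither the numerator of `B_{2k}` nor that of
`B_{2m-2k}` is either `0` or at least `√(4m/27)`. -/
theorem result (p : ℕ) (hp : p.Prime) (m : ℕ) (hm : 2 ≤ m) (hmp : 2 * m + 3 ≤ p)
    (hirr : (p : ℤ) ∣ (bernoulli (2 * m)).num) (r : ℕ)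
    (hr : r = ((Ioo 0 m).filter (fun k => ¬ ((p : ℤ) ∣ (bernoulli (2 * k)).num) ∧
      ¬ ((p : ℤ) ∣ (bernoulli (2 * (m - k))).num))).card) :
    r = 0 ∨ 4 * m ≤ 27 * r ^ 2 := by
  rcases Finset.eq_empty_or_nonempty ((Ioo 0 m).filter (fun k => ¬ ((p : ℤ) ∣ (bernoulli (2 * k)).num) ∧
        ¬ ((p : ℤ) ∣ (bernoulli (2 * (m - k))).num))) with h | h
  · left; rw [hr, h, Finset.card_empty]
  · right
    rw [hr]
    refine Pool.Agent.W204.Reg.popular_num p hp m hm hmp hirr _ ?_ h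
    intro k
    rw [Finset.mem_filter, Finset.mem_Ioo]
    constructor
    · rintro ⟨⟨h1, h2⟩, h3, h4⟩; exact ⟨h1, h2, h3, h4⟩
    · rintro ⟨h1, h2, h3, h4⟩; exact ⟨⟨h1, h2⟩, h3, h4⟩


end Pool.Agent.Results.MP_a3a416_nt.PopularSums
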