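import Mathlib
import Pool.Agent.W204.Reg.Pop

open Finset

namespace Pool.Agent.Results.MP_a3a416_nt.RegularIndexCount

/-- For every prime `p` and every `K ≥ 1` with `2K ≤ p - 3`, at least `K^{2/3}/11` of the Bernoulli
numbers `B_2, B_4, …, B_{2K}` have a numerator that is not divisible by `p`. -/
theorem result (p : ℕ) (hp : p.Prime) (K : ℕ) (hK1 : 1 ≤ K) (hKp : 2 * K + 3 ≤ p) :
    (K : ℝ) ^ ((2 : ℝ) / 3) ≤
      11 * (((Icc 1 K).filter (fun m => ¬ ((p : ℤ) ∣ (bernoulli (2 * m)).num))).card : ℝ) := by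
  have : Fact p.Prime := ⟨hp⟩
  classical
  have h := Pool.Agent.W204.Reg.count_main (fun m => ¬ ((p : ℤ) ∣ (bernoulli (2 * m)).num))
    ((p - 3) / 2) ?_ ?_ ?_ K hK1 (by omega)
  · set f := ((Icc 1 K).filter (fun m => ¬ ((p : ℤ) ∣ (bernoulli (2 * m)).num))).card with hf
    have hr : ((K : ℝ) ^ ((2 : ℝ) / 3)) ^ 3 ≤ (11 * (f : ℝ)) ^ 3 := by
      rw [← Real.rpow_natCast, ← Real.rpow_mul (by positivity)]
      norm_num
      have h3 : ((K ^ 2 : ℕ) : ℝ) ≤ (((11 * f) ^ 3 : ℕ) : ℝ) := by exact_mod_cast h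
      push_cast at h3
      linarith
    exact le_of_pow_le_pow_left₀ (by norm_num) (by positivity) hr
  · have h2 : bernoulli (2 * 1) = 6⁻¹ := bernoulli_two
    rw [h2]
    have h3 : ((6 : ℚ)⁻¹).num = 1 := by norm_num
    rw [h3]
    intro h
    have := Int.le_of_dvd (by norm_num) h
    have := hp.two_le
    omega
  · intro a r hr har hM
    rcases Nat.eq_zero_or_pos a with h0 | h0
    · refine ⟨1, by omega, by omega, ?_⟩
      have h2 : bernoulli (2 * 1) = 6⁻¹ := bernoulli_two
      rw [h2]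
      have h3 : ((6 : ℚ)⁻¹).num = 1 := by norm_num
      rw [h3]
      intro h
      have := Int.le_of_dvd (by norm_num) h
      have := hp.two_le
      omega
    · by_contra hcon
      push Not at hcon
      refine Pool.Agent.H332R2.no_window (p := p) (2 * a) r (r + 1) (by omega) (by omega) (by nlinarith)
        (by omega) (by omega) ?_
      intro k hk1 hk2
      rcases Nat.even_or_odd' k with ⟨m, hm | hm⟩
      · subst hm
        rw [Pool.Agent.H332R2.cc_eq_zero_iff (by omega) (by omega)]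
        exact hcon m (by omega) (by omega)
      · subst hm
        exact Pool.Agent.W204.Reg.cc_odd ⟨m, rfl⟩ (by omega)
  · intro m hm2 hmM hS R hR hne
    exact Pool.Agent.W204.Reg.popular_num p hp m hm2 (by omega) (not_not.mp hS) R (by simpa using hR) hne

end Pool.Agent.Results.MP_a3a416_nt.RegularIndexCount
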